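import Pool.Agent.R496.NN
import Pool.Agent.R496.NNR

/-!
# Divisors of `n ^ n + 1` repel powers of `n`

If `n ^ n + 1` is prime and `n > 2`, then `n = 2 ^ (2 ^ k)` with `k ≥ 1`.
-/

set_option autoImplicit false

namespace Pool.Agent.Results.MP_a70bdc_nt.RepelBasePowers

/-- Let `n = 2 ^ (2 ^ k)`, `k ≥ 1`, and let `a` be a divisor of `n ^ n + 1` with `1 < a < n ^ n + 1`.
(1) If `a = u n ^ i + c` with integers `u ≥ 0`, `i ≥ 1` and `c`, then
`a ≤ n ^ max(i q - n, 0) u ^ q + n ^ max(n - i q, 0) |c| ^ q` for every integer `q ≥ 0`.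
(2) If `a = u n ^ i + 1` with `i ≥ 1`, then `n ^ (i ^ 2) < u ^ n`.
(3) `n ^ (i (i - 1)) ≤ |a - n ^ i| ^ (n + i)` for every `i ≥ 0`. -/
theorem result (k n a : ℕ) (hk : 1 ≤ k) (hn : n = 2 ^ (2 ^ k)) (ha : a ∣ n ^ n + 1) (h1 : 1 < a)
    (h2 : a < n ^ n + 1) :
    (∀ (u i q : ℕ) (c : ℤ), 1 ≤ i → (a : ℤ) = u * (n : ℤ) ^ i + c →
      (a : ℤ) ≤ (n : ℤ) ^ (i * q - n) * u ^ q + (n : ℤ) ^ (n - i * q) * |c| ^ q) ∧
    (∀ u i : ℕ, 1 ≤ i → a = u * n ^ i + 1 → n ^ (i ^ 2) < u ^ n) ∧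
    (∀ i : ℕ, (n : ℤ) ^ (i * (i - 1)) ≤ |(a : ℤ) - (n : ℤ) ^ i| ^ (n + i)) := by
  rw [Pool.Agent.R496.NN.nn_eq k n hn] at ha h2
  obtain ⟨h3, h4, h5⟩ := Pool.Agent.R496.NNR.result (k + 2 ^ k) a ha h1 h2
  have hk1 : 1 ≤ 2 ^ k := Nat.one_le_two_pow
  have hk0 : 2 ^ k ≠ 0 := by positivity
  have hk2 : 2 ≤ 2 ^ k := by
    calc 2 = 2 ^ 1 := by norm_num
      _ ≤ 2 ^ k := Nat.pow_le_pow_right (by norm_num) hk
  have hn1 : 1 ≤ n := by rw [hn]; exact Nat.one_le_two_pow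
  have e1 : ∀ j : ℕ, (n : ℤ) ^ j = 2 ^ (2 ^ k * j) := by
    intro j
    have := Pool.Agent.R496.NN.pow_eq k n j hn
    exact_mod_cast this
  refine ⟨?_, ?_, ?_⟩
  · intro u i q c hi h
    have h6 := h3 u (2 ^ k * i) q c (by nlinarith) (by rw [h, e1])
    rw [e1, e1]
    have e2 : 2 ^ k * (i * q - n) = 2 ^ k * i * q - 2 ^ (k + 2 ^ k) := by
      rw [Nat.mul_sub, Pool.Agent.R496.NN.full k n hn, mul_assoc]
    have e3 : 2 ^ k * (n - i * q) = 2 ^ (k + 2 ^ k) - 2 ^ k * i * q := by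
      rw [Nat.mul_sub, Pool.Agent.R496.NN.full k n hn, mul_assoc]
    rw [e2, e3]
    exact h6
  · intro u i hi h
    have hu : u ≠ 0 := by
      rintro rfl
      rw [zero_mul, zero_add] at h
      omega
    obtain ⟨t, w, hw, huw⟩ := Nat.exists_eq_two_pow_mul_odd hu
    have hA : a = w * 2 ^ (t + 2 ^ k * i) + 1 := by
      rw [h, huw, Pool.Agent.R496.NN.pow_eq k n i hn, pow_add]
      ring
    have h6 := h4 w (t + 2 ^ k * i) hw (by nlinarith) hA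
    have h7 : (n ^ (i ^ 2)) ^ 2 ^ k < (u ^ n) ^ 2 ^ k := by
      calc (n ^ (i ^ 2)) ^ 2 ^ k = 2 ^ ((2 ^ k * i) ^ 2) := by
            rw [← pow_mul, Pool.Agent.R496.NN.pow_eq k n _ hn]
            congr 1
            ring
        _ ≤ 2 ^ ((t + 2 ^ k * i) ^ 2) := Nat.pow_le_pow_right (by norm_num)
            (Nat.pow_le_pow_left (by omega) 2)
        _ < w ^ 2 ^ (k + 2 ^ k) := h6
        _ ≤ u ^ 2 ^ (k + 2 ^ k) := by
            refine Nat.pow_le_pow_left ?_ _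
            rw [huw]
            exact Nat.le_mul_of_pos_left _ (by positivity)
        _ = (u ^ n) ^ 2 ^ k := by
            rw [← pow_mul, mul_comm n, Pool.Agent.R496.NN.full k n hn]
    exact lt_of_pow_lt_pow_left₀ _ (Nat.zero_le _) h7
  · intro i
    have h6 := h5 (2 ^ k * i)
    rw [← e1] at h6
    have h7 : ((n : ℤ) ^ (i * (i - 1))) ^ 2 ^ k ≤ (|(a : ℤ) - (n : ℤ) ^ i| ^ (n + i)) ^ 2 ^ k := by
      calc ((n : ℤ) ^ (i * (i - 1))) ^ 2 ^ k = 2 ^ (2 ^ k * i * (2 ^ k * (i - 1))) := by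
            rw [← pow_mul, e1]
            congr 1
            ring
        _ ≤ 2 ^ (2 ^ k * i * (2 ^ k * i - 2)) := by
            refine pow_le_pow_right₀ (by norm_num) (Nat.mul_le_mul_left _ ?_)
            rcases Nat.eq_zero_or_pos i with h0 | h0
            · subst h0
              simp
            · have : 2 ^ k * (i - 1) = 2 ^ k * i - 2 ^ k := by
                rw [Nat.mul_sub, mul_one]
              omega
        _ ≤ |(a : ℤ) - (n : ℤ) ^ i| ^ (2 ^ (k + 2 ^ k) + 2 ^ k * i) := h6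
        _ = (|(a : ℤ) - (n : ℤ) ^ i| ^ (n + i)) ^ 2 ^ k := by
            rw [← pow_mul, ← Pool.Agent.R496.NN.full k n hn]
            congr 1
            ring
    exact le_of_pow_le_pow_left₀ hk0 (by positivity) h7

end Pool.Agent.Results.MP_a70bdc_nt.RepelBasePowers
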